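import Mathlib
import Pool.Agent.Lib.helper2.IRPath

set_option autoImplicit false

namespace Pool.Agent.Results.MP_4ec7af_co.Disproof

/-- Every vertex of `D` has a `D`-private neighbour. -/
def Irredundant {V : Type} (G : SimpleGraph V) (D : Finset V) : Prop :=
  ∀ v ∈ D, ∃ w, (w = v ∨ G.Adj v w) ∧ ∀ u ∈ D, u ≠ v → ¬ (w = u ∨ G.Adj u w)

/-- `D` is an irredundant set of maximum size. -/
def IsIRSet {V : Type} (G : SimpleGraph V) (D : Finset V) : Prop :=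
  Irredundant G D ∧ ∀ T, Irredundant G T → T.card ≤ D.card

/-- The IR-graph of `G`. -/
def IRGraph {V : Type} [DecidableEq V] (G : SimpleGraph V) : SimpleGraph {D // IsIRSet G D} :=
  SimpleGraph.fromRel fun D D' =>
    ∃ u ∈ D.1, ∃ v ∈ D'.1, G.Adj u v ∧ D'.1 = insert v (D.1.erase u)

def N (v w : Fin 12) : Bool := Nat.testBit 19409183133206418337394589591398952613638975 (12 * v.val + w.val)

def G : SimpleGraph (Fin 12) := SimpleGraph.fromRel (fun u v => N u v = true)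

instance : DecidableRel G.Adj := fun x y => by unfold G; infer_instance

def f : Fin 20 → Finset (Fin 12) :=
  ![{0, 4, 7}, {0, 4, 8}, {0, 8, 9}, {3, 8, 9}, {3, 6, 9}, {3, 6, 7}, {3, 7, 11}, {3, 8, 11}, {2, 8, 11}, {2, 5, 8}, {2, 5, 6}, {2, 6, 10}, {2, 10, 11}, {1, 10, 11}, {1, 4, 11}, {1, 4, 5}, {1, 5, 9}, {1, 9, 10}, {0, 9, 10}, {0, 7, 10}]

def P (T : Finset (Fin 12)) : Prop := ∀ v ∈ T, ∃ w, N v w = true ∧ ∀ u ∈ T, u ≠ v → ¬ N u w = true

instance : DecidablePred P := fun T => by unfold P; infer_instance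

lemma c0 : ∀ v w, (w = v ∨ G.Adj v w) ↔ N v w = true := by decide +kernel

lemma c1 : ∀ a b c : Fin 12, a ≠ b → a ≠ c → b ≠ c → P {a, b, c} → ∃ i, f i = {a, b, c} := by
  decide +kernel

lemma c2 : ∀ i, (f i).card = 3 ∧ P (f i) ∧ ∀ d, d ∉ f i → ¬ P (insert d (f i)) := by decide +kernel

lemma P_mono {S T : Finset (Fin 12)} (h : S ⊆ T) (hT : P T) : P S :=
  fun v hv => (hT v (h hv)).imp fun _ hw => ⟨hw.1, fun u hu => hw.2 u (h hu)⟩

lemma c3 (T : Finset (Fin 12)) (hT : P T) (h3 : 3 ≤ T.card) : ∃ i, f i = T := by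
  obtain ⟨S, hS, hc⟩ := Finset.exists_subset_card_eq h3
  obtain ⟨a, b, c, h1, h2, h4, rfl⟩ := Finset.card_eq_three.1 hc
  obtain ⟨i, hi⟩ := c1 a b c h1 h2 h4 (P_mono hS hT)
  rw [← hi] at hS
  refine ⟨i, hS.antisymm fun d hd => ?_⟩
  by_contra hn
  exact (c2 i).2.2 d hn (P_mono (Finset.insert_subset hd hS) hT)

lemma hQ (S : Finset (Fin 12)) : IsIRSet G S ↔ ∃ i, f i = S := by
  have e : ∀ T, Irredundant G T ↔ P T := fun T => by simp only [Irredundant, P, c0]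
  simp only [IsIRSet, e]
  constructor
  · rintro ⟨h1, h2⟩
    exact c3 S h1 ((c2 0).1 ▸ h2 _ (c2 0).2.1)
  · rintro ⟨i, rfl⟩
    refine ⟨(c2 i).2.1, fun T hT => ?_⟩
    by_contra hlt
    obtain ⟨j, rfl⟩ := c3 T hT (by have := (c2 i).1; omega)
    exact hlt (by rw [(c2 i).1, (c2 j).1])

lemma r1 : ∀ i j : Fin 20, (SimpleGraph.cycleGraph 20).Adj i j ↔ i ≠ j ∧
    ((∃ v ∈ f i, ∃ v' ∈ f j, G.Adj v v' ∧ f j = insert v' ((f i).erase v)) ∨
      ∃ v ∈ f j, ∃ v' ∈ f i, G.Adj v v' ∧ f i = insert v' ((f j).erase v)) := by decide +kernel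

theorem result : ∃ (n m : ℕ) (G : SimpleGraph (Fin m)), 5 ≤ n ∧
    Nonempty (SimpleGraph.cycleGraph n ≃g IRGraph G) :=
  ⟨20, 12, G, by norm_num, Pool.Agent.Lib.helper2.IRPath.iso_of (SimpleGraph.cycleGraph 20) (IsIRSet G)
    (fun D D' => ∃ v ∈ D, ∃ v' ∈ D', G.Adj v v' ∧ D' = insert v' (D.erase v)) f (by decide +kernel)
    hQ r1⟩

end Pool.Agent.Results.MP_4ec7af_co.Disproof
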